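import Pool.Agent.ZGO.StmtsB

/-!
# Row ZGO / RET: return
-/

set_option autoImplicit false

namespace Pool.Agent.ZGO.H5

open Pool.Agent.ZGO

/-- RET -/
theorem ret (hRTA : RtaStmt) (hRTB : RtbStmt) (hJTI : JtiStmt) (hFNK : FnkStmt) : RetStmt := by
  intro P _ _ p ψ X _ θ ρ hU
  obtain ⟨a, Q, ha, hQ, hQθ, hQρ, hne⟩ := hRTA P p ψ X θ ρ hU
  obtain ⟨b, hb⟩ := hRTB P ψ X θ ρ hU.sim Q hQθ hQρ hne
  have hfin : {x : X | (⇑θ)^[b] x = 0}.Finite := (hFNK P ψ X θ ρ hU.sim.shf).1 b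
  have hT : {Y : AddSubgroup X | (Y : Set X) ⊆ {x : X | (⇑θ)^[b] x = 0}}.Finite :=
    (hfin.finite_subsets).preimage (SetLike.coe_injective.injOn)
  have hex : ∃ Y : AddSubgroup X, {n | n ∈ {n | ∀ x ∈ Q n, (⇑θ)^[b] x = 0} ∧ Q n = Y}.Infinite := by
    by_contra hcon
    push Not at hcon
    refine hb ((hT.biUnion (t := fun Y => {n | n ∈ {n | ∀ x ∈ Q n, (⇑θ)^[b] x = 0} ∧ Q n = Y})
      ?_).subset ?_)
    · intro Y _
      exact hcon Y
    · intro n hn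
      simp only [Set.mem_iUnion, exists_prop]
      exact ⟨Q n, fun x hx => hn x hx, hn, rfl⟩
  obtain ⟨Y, hY⟩ := hex
  obtain ⟨n1, hn1, hq1⟩ := hY.nonempty
  obtain ⟨n2, ⟨hn2, hq2⟩, hlt⟩ := hY.exists_gt (a n1)
  have h1 : n1 ≤ a n1 := ha n1
  have h2 : n2 ≤ a n2 := ha n2
  refine ⟨Y, n2 - n1, a n2 - a n1, by omega, by omega, ?_, ?_, ?_⟩
  · refine hfin.subset ?_
    intro x hx
    exact hn1 x (by rw [hq1]; exact hx)
  · intro g x hx
    rw [← hq1] at hx ⊢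
    exact hQρ n1 g x hx
  · intro x
    obtain ⟨x', rfl⟩ := (hU.sim.sur.iterate (a n1)) x
    have hj := hJTI P p ψ X θ ρ hU (a n1) Y ((Jo ρ)^[n1] ⊥) (fun z => by
      rw [← hq1]; exact hQ n1 z) (n2 - n1) x'
    rw [← hj, ← Function.iterate_add_apply, ← Function.iterate_add_apply]
    have e1 : n2 - n1 + n1 = n2 := by omega
    have e2 : a n2 - a n1 + a n1 = a n2 := by omega
    rw [e1, e2, ← hq2]
    exact hQ n2 x'

end Pool.Agent.ZGO.H5
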